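import Mathlib
import Pool.Agent.Run7.h338.CW.Asym

/-!
# One residue class for each prime near `N^α`: every choice, almost all of its translates

For every choice `a` of one class for each prime `p` with `x ≤ p < 2 x`:

1. for all but at most `34 T / (ε log x)` of the `T ≥ x ^ 2` consecutive translates `a - t` one has
   `S_(a-t)(N) ≥ (1 - ε) ∑ N / p` for all `N ≥ 4 x / ε` at once (so for `x = N^α` for all exponents `α < 1` at
   once); up to the factor `1 - ε` and rounding this is the largest value any choice can have;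
2. at most `32 N^(-ε) (J + N^(2α-1))` of `J` consecutive windows of length `N` have fewer than `N^(1-ε)` covered
   integers.
-/

set_option autoImplicit false

namespace Pool.Agent.Results.MP_bb5cc8_nt.AlmostAllTranslates

open Finset Filter Topology
open Pool.Agent.Run7.h338.CW (Near cov main1 main2)

/-- the primes `p` with `x ≤ p < 2 x` -/
noncomputable def P (x : ℝ) : Finset ℕ :=
  (Finset.range ⌈2 * x⌉₊).filter (fun p : ℕ => p.Prime ∧ x ≤ (p : ℝ) ∧ (p : ℝ) < 2 * x)

open Classical in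
/-- the number of integers `n` with `1 ≤ n ≤ N` and `n ≡ a p (mod p)` for some prime `x ≤ p < 2 x`; for
`x = N ^ α` this is `S_a(N)` -/
noncomputable def S (x : ℝ) (N : ℕ) (a : ℕ → ℤ) : ℕ :=
  ((Ioc 0 (N : ℤ)).filter (fun n : ℤ => ∃ p ∈ P x, n ≡ a p [ZMOD (p : ℤ)])).card

lemma near_P (x : ℝ) : Near (P x) x := Pool.Agent.Run7.h338.CW.near_P x

lemma S_translate (x : ℝ) (N : ℕ) (a : ℕ → ℤ) (t : ℤ) :
    S x N (fun p => a p - t) = (cov (P x) a (Ioc t (t + N))).card := by
  classical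
  unfold S cov
  refine card_bij (fun n _ => n + t) ?_ ?_ ?_
  · intro n hn
    rw [mem_filter, mem_Ioc] at hn ⊢
    obtain ⟨⟨h1, h2⟩, p, hp, h3⟩ := hn
    refine ⟨⟨by omega, by omega⟩, p, hp, ?_⟩
    have := h3.add_right t
    simpa using this
  · intro n _ m _ h
    exact add_right_cancel h
  · intro m hm
    rw [mem_filter, mem_Ioc] at hm
    obtain ⟨⟨h1, h2⟩, p, hp, h3⟩ := hm
    refine ⟨m - t, ?_, by ring⟩
    rw [mem_filter, mem_Ioc]
    exact ⟨⟨by omega, by omega⟩, p, hp, h3.sub_right t⟩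

open Classical in
/-- **Every choice, almost all translates.** `S x N a` is the number of `1 ≤ n ≤ N` with `n ≡ a p (mod p)` for some prime
`x ≤ p < 2 x`, and `a - t` is the choice `p ↦ a p - t`, so `S x N (a - t)` counts the covered integers of `(t, t + N]`.
(1) For all real `x ≥ 2`, all choices `a`, all intervals `(A, A + T]` with `T ≥ x ^ 2` and `0 < ε ≤ 1`: all but at most
`34 T / (ε log x)` of the integers `t` of the interval are such that `S_(a - t)(N) ≥ (1 - ε) ∑ N / p` (sum over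
the primes `x ≤ p < 2 x`) for ALL `N ≥ 4 x / ε`.
(2) Let `0 < α < 1`, `ε > 0`. For all large `N`, all choices `a` and all `J`, at most `32 N^(-ε) (J + N^(2α - 1))`
of the translates `a - j N`, `0 ≤ j < J`, have `S < N^(1 - ε)` (that is, of the windows `(j N, (j + 1) N]`). -/
theorem result :
    (∀ x : ℝ, 2 ≤ x → ∀ (a : ℕ → ℤ) (A : ℤ) (T : ℕ), x ^ 2 ≤ T → ∀ ε : ℝ, 0 < ε → ε ≤ 1 →
      (((Ioc A (A + T)).filter (fun t : ℤ => ∃ N : ℕ, 4 * x / ε ≤ N ∧
        (S x N (fun p => a p - t) : ℝ) < (1 - ε) * ∑ p ∈ P x, (N : ℝ) / p)).card : ℝ) ≤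
        34 * T / (ε * Real.log x)) ∧
    (∀ α ε : ℝ, 0 < α → α < 1 → 0 < ε → ∃ N₀ : ℕ, ∀ N : ℕ, N₀ ≤ N → ∀ (a : ℕ → ℤ) (J : ℕ),
      (((range J).filter (fun j : ℕ =>
        (S ((N : ℝ) ^ α) N (fun p => a p - j * N) : ℝ) < (N : ℝ) ^ (1 - ε))).card : ℝ) ≤
        32 * (N : ℝ) ^ (-ε) * (J + (N : ℝ) ^ (2 * α - 1))) := by
  refine ⟨?_, ?_⟩
  · intro x hx a A T hT ε hε hε1
    have h := main1 (near_P x) hx a A T hT ε hε hε1
    refine le_trans (le_of_eq ?_) h
    congr 2
    refine filter_congr fun t _ => ?_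
    simp only [S_translate]
  · intro α ε hα hα1 hε
    obtain ⟨N₀, hN₀⟩ := Pool.Agent.Run7.h338.CW.ev α ε hα hα1 hε
    refine ⟨N₀, fun N hN a J => ?_⟩
    obtain ⟨h2, h11, h8⟩ := hN₀ N hN
    have h2' : (2 : ℝ) ≤ N := by exact_mod_cast h2
    have hN0 : (0 : ℝ) < N := by linarith
    have hx : (0 : ℝ) < (N : ℝ) ^ α := by positivity
    have hX : (0 : ℝ) < (N : ℝ) ^ (1 - ε) := by positivity
    have h := main2 (near_P ((N : ℝ) ^ α)) hx a 0 J N (by linarith) ((N : ℝ) ^ (1 - ε)) hX h8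
    rw [Pool.Agent.Run7.h338.CW.powers hN0] at h
    refine le_trans ?_ h
    have hsub : (range J).filter (fun j : ℕ =>
        (S ((N : ℝ) ^ α) N (fun p => a p - j * N) : ℝ) < (N : ℝ) ^ (1 - ε)) ⊆
        (range J).filter (fun j : ℕ =>
        ((cov (P ((N : ℝ) ^ α)) a (Ioc (0 + j * N) (0 + (j + 1) * N))).card : ℝ) ≤
          (N : ℝ) ^ (1 - ε)) := by
      intro j hj
      rw [mem_filter] at hj ⊢
      refine ⟨hj.1, ?_⟩
      have h3 := hj.2
      rw [S_translate] at h3
      have e1 : (0 : ℤ) + (j : ℤ) * N = (j : ℤ) * N := by ring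
      have e2 : (0 : ℤ) + ((j : ℤ) + 1) * N = (j : ℤ) * N + N := by ring
      rw [e1, e2]
      exact h3.le
    exact_mod_cast card_le_card hsub

end Pool.Agent.Results.MP_bb5cc8_nt.AlmostAllTranslates
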