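import Mathlib
import Pool.Agent.Run7.h338.FF.Main3

/-!
# Residue classes modulo irreducible polynomials over `F_q[t]`

Function field analogue of the problem: the integers up to `N` become the `N = q ^ n` polynomials of degree `< n`
over the field with `q` elements, the primes near `N ^ α` the monic irreducible polynomials of degree `m`,
`α = m / n`. For `1/2 ≤ α < 1` every choice of classes covers at least `N ^ (1 - ε)` polynomials as soon as
`q ^ ε ≥ 16`, for all `m`, `n` and all choices. More generally for EVERY set `Q` of moduli the covered polynomials are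
at least `1 / C` times the number of nonzero multiples, `C = 2 (2 - 1 / q) ^ n (log n + 2)`.

Proof: a class modulo `P` contains, in the vector space of the polynomials of degree `< n`, a line in the direction of
every nonzero multiple of `P`. Identify the space with the field with `q ^ n` elements: few multiples of the set of
these directions cover almost all nonzero elements (COVER, helper926). So few multiples of the covered set together
have lines in almost all directions, and the method of multiplicities of Dvir, Kopparty, Saraf and Sudan (sum form of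
the Schwartz-Zippel lemma with multiplicities by helper626, counting of irreducible polynomials and of multiples by
helper715) bounds the number of their elements from below.
-/

set_option autoImplicit false

namespace Pool.Agent.Results.MP_bb5cc8_nt.FunctionFieldLargeQ

open Polynomial

/-- number of polynomials `f` of degree `< n` with `f ≡ a P (mod P)` for at least one `P` of `Q` -/
noncomputable def covered {F : Type} [Field F] (n : ℕ) (Q : Set F[X]) (a : F[X] → F[X]) : ℕ :=
  {f : F[X] | f.degree < (n : ℕ) ∧ ∃ P ∈ Q, P ∣ f - a P}.ncard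

/-- number of nonzero polynomials of degree `< n` divisible by at least one `P` of `Q` -/
noncomputable def multiples {F : Type} [Field F] (n : ℕ) (Q : Set F[X]) : ℕ :=
  {h : F[X] | h ≠ 0 ∧ h.degree < (n : ℕ) ∧ ∃ P ∈ Q, P ∣ h}.ncard

/-- the monic irreducible polynomials of degree `m` -/
def Irr (F : Type) [Field F] (m : ℕ) : Set F[X] :=
  {P | P.Monic ∧ Irreducible P ∧ P.natDegree = m}

/-- the constant `2 (2 - 1 / q) ^ n (log n + 2)` -/
noncomputable def C (q : ℝ) (n : ℕ) : ℝ := 2 * (2 - 1 / q) ^ n * (Real.log n + 2)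

/-- **Residue classes over `F_q[t]`.** `F` is any finite field, `q` its number of elements, `a P` the chosen class
modulo `P`.
(1) For every set `Q` of moduli (no condition) and every choice `a`, `n ≥ 2`: the number of covered polynomials of degree
`< n` is at least `1 / C q n` times the number of nonzero multiples of elements of `Q` of degree `< n`.
(2) For `K` monic irreducible moduli of degree `m`, `n / 2 ≤ m < n`: at least `K (q ^ (n - m) - 1) / C q n`.
(3) For all monic irreducible moduli of degree `m`, `n / 2 ≤ m < n`: at least `q ^ n / (4 m C q n)`.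
(4) If `q ^ ε ≥ 16` this is at least `(q ^ n) ^ (1 - ε)` for all `m`, `n` with `n / 2 ≤ m < n` and all `a`.
(5) For every `ε > 0` there is `n₀` such that for all `n ≥ n₀`, all finite fields, all `n / 2 ≤ m < n` and all `a` it is
at least `(q ^ n) ^ (1 - log (2 - 1 / q) / log q - ε)`. -/
theorem result :
    (∀ (F : Type) [Field F] [Fintype F] (n : ℕ) (Q : Set F[X]) (a : F[X] → F[X]), 2 ≤ n →
      (multiples n Q : ℝ) ≤ C (Fintype.card F) n * covered n Q a) ∧
    (∀ (F : Type) [Field F] [Fintype F] (m n : ℕ) (Q : Finset F[X]) (a : F[X] → F[X]),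
      m < n → n ≤ 2 * m → (∀ P ∈ Q, P ∈ Irr F m) →
      (Q.card : ℝ) * ((Fintype.card F : ℝ) ^ (n - m) - 1) ≤
        C (Fintype.card F) n * covered n (Q : Set F[X]) a) ∧
    (∀ (F : Type) [Field F] [Fintype F] (m n : ℕ) (a : F[X] → F[X]), m < n → n ≤ 2 * m →
      (Fintype.card F : ℝ) ^ n ≤ 4 * m * C (Fintype.card F) n * covered n (Irr F m) a) ∧
    (∀ (ε : ℝ) (F : Type) [Field F] [Fintype F], (16 : ℝ) ≤ (Fintype.card F : ℝ) ^ ε →
      ∀ (m n : ℕ) (a : F[X] → F[X]), m < n → n ≤ 2 * m →
      (((Fintype.card F : ℝ) ^ n) ^ (1 - ε) : ℝ) ≤ covered n (Irr F m) a) ∧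
    (∀ ε : ℝ, 0 < ε → ∃ n₀ : ℕ, ∀ (F : Type) [Field F] [Fintype F] (m n : ℕ) (a : F[X] → F[X]),
      n₀ ≤ n → m < n → n ≤ 2 * m →
      (((Fintype.card F : ℝ) ^ n) ^ (1 - Real.log (2 - 1 / (Fintype.card F : ℝ)) /
        Real.log (Fintype.card F) - ε) : ℝ) ≤ covered n (Irr F m) a) := by
  have hD : Pool.Agent.Run7.h338.FF.S_DIR3 :=
    Pool.Agent.Run7.h338.FF.t_DIR3 (Pool.Agent.Run7.h338.FF.t_KAK3 Run7.h626.FF.t_MSUM)
  have hI : Pool.Agent.Run7.h338.FF.S_IRRED3 := Pool.Agent.Run7.h338.FF.t_IRRED3
  have hN : Pool.Agent.Run7.h338.FF.S_COUNT := Run7.h715.FF.t_COUNT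
  refine ⟨?_, ?_, ?_, ?_, ?_⟩
  · intro F _ _ n Q a hn
    exact Pool.Agent.Run7.h338.FF.part1 hD F n hn Q a
  · intro F _ _ m n Q a hmn hn hQ
    exact Pool.Agent.Run7.h338.FF.part2 hN hD F m n Q a hmn hn hQ
  · intro F _ _ m n a hmn hn
    have h := Pool.Agent.Run7.h338.FF.part3 hI hN hD F m n a hmn hn
    have h2 : 4 * (m : ℝ) * C (Fintype.card F) n * covered n (Irr F m) a =
        8 * m * (2 - 1 / (Fintype.card F : ℝ)) ^ n * (Real.log n + 2) *
          Pool.Agent.Run7.h338.FF.cov n (Pool.Agent.Run7.h338.FF.Irr F m) a := by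
      change 4 * (m : ℝ) * (2 * (2 - 1 / (Fintype.card F : ℝ)) ^ n * (Real.log n + 2)) *
        Pool.Agent.Run7.h338.FF.cov n (Pool.Agent.Run7.h338.FF.Irr F m) a = _
      ring
    rw [h2]
    exact h
  · intro ε F _ _ hq m n a hmn hn
    exact Pool.Agent.Run7.h338.FF.part5 hI hN hD ε F hq m n a hmn hn
  · intro ε hε
    exact Pool.Agent.Run7.h338.FF.part6 hI hN hD ε hε

end Pool.Agent.Results.MP_bb5cc8_nt.FunctionFieldLargeQ
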