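import Mathlib
import Pool.Agent.Run7.h338.CW.Asym

/-!
# One residue class for each prime near `N^α`: dilates of a choice, and homogeneous progressions

For every choice `a` of one class for each prime `N^α ≤ p < 2 N^α` only few of the dilates `u a` and of the
quotients `a / u`, `u` prime, have fewer than `N^(1-ε)` covered integers in `[1, N]`.
-/

set_option autoImplicit false

namespace Pool.Agent.Results.MP_bb5cc8_nt.PrimeDilates

open Finset Filter Topology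
open Pool.Agent.Run7.h338.CW (Near cov main3 main4 powers)

/-- the primes `p` with `x ≤ p < 2 x` -/
noncomputable def P (x : ℝ) : Finset ℕ :=
  (Finset.range ⌈2 * x⌉₊).filter (fun p : ℕ => p.Prime ∧ x ≤ (p : ℝ) ∧ (p : ℝ) < 2 * x)

open Classical in
/-- the number of integers `n` with `1 ≤ n ≤ N` and `n ≡ a p (mod p)` for some prime `x ≤ p < 2 x`; for
`x = N ^ α` this is `S_a(N)` -/
noncomputable def S (x : ℝ) (N : ℕ) (a : ℕ → ℤ) : ℕ :=
  ((Ioc 0 (N : ℤ)).filter (fun n : ℤ => ∃ p ∈ P x, n ≡ a p [ZMOD (p : ℤ)])).card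

open Classical in
/-- the number of integers `n` with `1 ≤ n ≤ N` and `u n ≡ a p (mod p)` for some prime `x ≤ p < 2 x`: the covered
elements of the progression `u, 2 u, …, N u` -/
noncomputable def H (x : ℝ) (N : ℕ) (u : ℕ) (a : ℕ → ℤ) : ℕ :=
  ((Ioc 0 (N : ℤ)).filter (fun n : ℤ => ∃ p ∈ P x, u * n ≡ a p [ZMOD (p : ℤ)])).card

lemma near_P (x : ℝ) : Near (P x) x := Pool.Agent.Run7.h338.CW.near_P x

open Classical in
/-- **Dilates of a choice by primes.** Let `0 < α < 1` and `ε > 0`. For all large `N` and all choices `a`: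
(1) for all `U ≥ 8` with `2 U < N^α`, at most `32 N^(-ε) (4 U + N^(2α - 1))` primes `U < u ≤ 2 U` are such that the
choice `u a : p ↦ u a(p)` has `S < N^(1 - ε)`;
(2) for all `U ≥ 1` with `2 U < N^α`, at most `96 log N N^(-ε) (2 U + N^(2α - 1))` primes `U < u ≤ 2 U` are such that
fewer than `N^(1 - ε)` of the elements of the progression `u, 2 u, …, N u` are covered by the classes of `a`
(that is, `S < N^(1 - ε)` for the choice `a / u`). -/
theorem result (α ε : ℝ) (hα : 0 < α) (hα1 : α < 1) (hε : 0 < ε) : ∃ N₀ : ℕ, ∀ N : ℕ, N₀ ≤ N → ∀ (a : ℕ → ℤ),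
    (∀ U : ℕ, 8 ≤ U → 2 * (U : ℝ) < (N : ℝ) ^ α →
      (((Ioc U (2 * U)).filter (fun u : ℕ => u.Prime ∧
        (S ((N : ℝ) ^ α) N (fun p => u * a p) : ℝ) < (N : ℝ) ^ (1 - ε))).card : ℝ) ≤
        32 * (N : ℝ) ^ (-ε) * (4 * U + (N : ℝ) ^ (2 * α - 1))) ∧
    (∀ U : ℕ, 1 ≤ U → 2 * (U : ℝ) < (N : ℝ) ^ α →
      (((Ioc U (2 * U)).filter (fun u : ℕ => u.Prime ∧
        (H ((N : ℝ) ^ α) N u a : ℝ) < (N : ℝ) ^ (1 - ε))).card : ℝ) ≤
        96 * Real.log N * (N : ℝ) ^ (-ε) * (2 * U + (N : ℝ) ^ (2 * α - 1))) := by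
  obtain ⟨N₀, hN₀⟩ := Pool.Agent.Run7.h338.CW.ev α ε hα hα1 hε
  refine ⟨N₀, fun N hN a => ?_⟩
  obtain ⟨h2, h11, h8⟩ := hN₀ N hN
  have h2' : (2 : ℝ) ≤ N := by exact_mod_cast h2
  have hN0 : (0 : ℝ) < N := by linarith
  have hx : (0 : ℝ) < (N : ℝ) ^ α := by positivity
  have hX : (0 : ℝ) < (N : ℝ) ^ (1 - ε) := by positivity
  refine ⟨fun U hU hUx => ?_, fun U hU hUx => ?_⟩
  · have h := main3 (near_P ((N : ℝ) ^ α)) hx a N U hU hUx h11 ((N : ℝ) ^ (1 - ε)) hX h8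
    have e : 32 * (N : ℝ) ^ (1 - ε) * (4 * (U : ℝ) * N + ((N : ℝ) ^ α) ^ 2) / (N : ℝ) ^ 2 =
        32 * (N : ℝ) ^ (-ε) * (4 * U + (N : ℝ) ^ (2 * α - 1)) := by
      rw [← powers hN0]
    rw [e] at h
    refine le_trans ?_ h
    have hsub : (Ioc U (2 * U)).filter (fun u : ℕ => u.Prime ∧
        (S ((N : ℝ) ^ α) N (fun p => u * a p) : ℝ) < (N : ℝ) ^ (1 - ε)) ⊆
        (Ioc U (2 * U)).filter (fun u : ℕ => u.Prime ∧
        ((cov (P ((N : ℝ) ^ α)) (fun p => u * a p) (Ioc 0 (N : ℤ))).card : ℝ) ≤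
          (N : ℝ) ^ (1 - ε)) := by
      intro u hu
      rw [mem_filter] at hu ⊢
      exact ⟨hu.1, hu.2.1, hu.2.2.le⟩
    exact_mod_cast card_le_card hsub
  · have h := main4 (near_P ((N : ℝ) ^ α)) hx a N U hU hUx (by linarith) ((N : ℝ) ^ (1 - ε)) hX h8
    have hκ : (Nat.log 2 (2 * U * N) : ℝ) ≤ 3 * Real.log N := by
      have hpos : 2 * U * N ≠ 0 := by positivity
      have g1 : (2 : ℝ) ^ (Nat.log 2 (2 * U * N)) ≤ ((2 * U * N : ℕ) : ℝ) := by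
        exact_mod_cast Nat.pow_log_le_self 2 hpos
      have g2 : ((2 * U * N : ℕ) : ℝ) ≤ (N : ℝ) ^ 2 := by
        push_cast
        nlinarith
      have g3 := Real.log_le_log (by positivity) (g1.trans g2)
      rw [Real.log_pow, Real.log_pow] at g3
      have g4 := Real.log_two_gt_d9
      have g5 : 0 ≤ Real.log (N : ℝ) := Real.log_nonneg (by linarith)
      push_cast at g3
      have g6 : (Nat.log 2 (2 * U * N) : ℝ) * 0.6931 ≤ 2 * Real.log N := by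
        refine le_trans ?_ g3
        gcongr
        linarith
      linarith
    have hY : (0 : ℝ) ≤ (N : ℝ) ^ (1 - ε) * (2 * (U : ℝ) * N + ((N : ℝ) ^ α) ^ 2) / (N : ℝ) ^ 2 := by
      positivity
    have h' : 32 * (Nat.log 2 (2 * U * N) : ℝ) * (N : ℝ) ^ (1 - ε) *
        (2 * (U : ℝ) * N + ((N : ℝ) ^ α) ^ 2) / (N : ℝ) ^ 2 ≤
        96 * Real.log N * (N : ℝ) ^ (-ε) * (2 * U + (N : ℝ) ^ (2 * α - 1)) := by
      rw [← powers hN0]
      calc 32 * (Nat.log 2 (2 * U * N) : ℝ) * (N : ℝ) ^ (1 - ε) *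
          (2 * (U : ℝ) * N + ((N : ℝ) ^ α) ^ 2) / (N : ℝ) ^ 2
          = (32 * (Nat.log 2 (2 * U * N) : ℝ)) * ((N : ℝ) ^ (1 - ε) *
          (2 * (U : ℝ) * N + ((N : ℝ) ^ α) ^ 2) / (N : ℝ) ^ 2) := by ring
        _ ≤ (32 * (3 * Real.log N)) * ((N : ℝ) ^ (1 - ε) *
          (2 * (U : ℝ) * N + ((N : ℝ) ^ α) ^ 2) / (N : ℝ) ^ 2) := by gcongr
        _ = _ := by ring
    refine le_trans ?_ (h.trans h')
    have hsub : (Ioc U (2 * U)).filter (fun u : ℕ => u.Prime ∧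
        (H ((N : ℝ) ^ α) N u a : ℝ) < (N : ℝ) ^ (1 - ε)) ⊆
        (Ioc U (2 * U)).filter (fun u : ℕ => u.Prime ∧
        ((((Ioc 0 (N : ℤ)).filter (fun n : ℤ => ∃ p ∈ P ((N : ℝ) ^ α),
          u * n ≡ a p [ZMOD (p : ℤ)])).card : ℝ) ≤ (N : ℝ) ^ (1 - ε))) := by
      intro u hu
      rw [mem_filter] at hu ⊢
      exact ⟨hu.1, hu.2.1, hu.2.2.le⟩
    exact_mod_cast card_le_card hsub

end Pool.Agent.Results.MP_bb5cc8_nt.PrimeDilates
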