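import Pool.Agent.Run7.h672.WT.Y
import Pool.Agent.Run7.h672.WT.Z2

/-!
# One residue class for each prime near `x`: every choice, random translates written by independent random words

For EVERY choice `a` of one class for each prime `p` with `x ≤ p < 2 x`, and a random integer `t = c + κ v` where the digits of
`v` (at least `C log ^ 2 x` of them) are written by independent random words: up to a probability of `C log x / (ε ^ 2 x)` the
translate `a - t` covers at least `(1 - ε) ∑ N / p` integers of `[1, N]`, for ALL `N ≥ 4 x / ε` at once. The definitions `len`,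
`Words`, `cat`, `noRest`, `cutWord`, `WordLaw` are in `Pool.Agent.Run7.h672.CC.Defs`.

Method: the exponential sums of the random integer are small at the fractions whose denominators are products of at most four of
the primes (`Pool.Agent.Run7.h672.CC`, by a strong renewal theorem and the exchange of two words which do not commute); the
second moment of the number of the overlaps in windows (`Pool.Agent.Run7.h672.WT.Z2`), for the lengths `2 ^ i`; and the inequality of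
Bonferroni as in `AlmostAllTranslates` (helper338, `Pool.Agent.Run7.h338.CW`).
-/

set_option autoImplicit false

open Finset
open Pool.Agent.Run7.h672.CC
open Pool.Agent.Run7.h672.WT
open Pool.Agent.Run7.h338.CW (Near cov bonf sum_r_ge sum_recip_ge sum_o_le sum_o cheb log4_lt o r)

namespace Pool.Agent.Results.MP_bb5cc8_nt.WordTranslates

/-- the primes `p` with `x ≤ p < 2 x` -/
noncomputable def P (x : ℝ) : Finset ℕ :=
  (Finset.range ⌈2 * x⌉₊).filter (fun p : ℕ => p.Prime ∧ x ≤ (p : ℝ) ∧ (p : ℝ) < 2 * x)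

open Classical in
/-- the number of integers `n` with `1 ≤ n ≤ N` and `n ≡ a p (mod p)` for some prime `x ≤ p < 2 x`; for
`x = N ^ α` this is `S_a(N)` -/
noncomputable def S (x : ℝ) (N : ℕ) (a : ℕ → ℤ) : ℕ :=
  ((Ioc 0 (N : ℤ)).filter (fun n : ℤ => ∃ p ∈ P x, n ≡ a p [ZMOD (p : ℤ)])).card

lemma near_P (x : ℝ) : Near (P x) x := by
  intro p hp
  unfold P at hp
  rw [mem_filter] at hp
  exact hp.2

lemma S_translate (x : ℝ) (N : ℕ) (a : ℕ → ℤ) (t : ℤ) :
    S x N (fun p => a p - t) = (cov (P x) a (Ioc t (t + N))).card := by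
  classical
  unfold S cov
  refine card_bij (fun n _ => n + t) ?_ ?_ ?_
  · intro n hn
    rw [mem_filter, mem_Ioc] at hn ⊢
    obtain ⟨⟨h1, h2⟩, p, hp, h3⟩ := hn
    refine ⟨⟨by omega, by omega⟩, p, hp, ?_⟩
    have := h3.add_right t
    simpa using this
  · intro n _ m _ h
    exact add_right_cancel h
  · intro m hm
    rw [mem_filter, mem_Ioc] at hm
    obtain ⟨⟨h1, h2⟩, p, hp, h3⟩ := hm
    refine ⟨m - t, ?_, by ring⟩
    rw [mem_filter, mem_Ioc]
    exact ⟨⟨by omega, by omega⟩, p, hp, h3.sub_right t⟩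

open Classical in
/-- the overlaps in a window -/
lemma over_eq (Q : Finset ℕ) (a : ℕ → ℤ) (t : ℤ) (N : ℕ) :
    ((∑ n ∈ Ioc t (t + N), o Q a n : ℕ) : ℝ) = ∑ z ∈ Q.offDiag, ∑ n ∈ Ioc (0 : ℤ) N, (if Ev a z (t + n) then (1 : ℝ) else 0) := by
  rw [sum_o]
  push_cast
  apply sum_congr rfl
  intro z _
  rw [← sum_filter, sum_const, nsmul_eq_mul, mul_one, Nat.cast_inj]
  symm
  refine card_bij (fun n _ => t + n) ?_ ?_ ?_
  · intro n hn
    rw [mem_filter, mem_Ioc] at hn ⊢
    exact ⟨⟨by omega, by omega⟩, hn.2⟩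
  · intro n _ m _ h
    exact add_left_cancel h
  · intro m hm
    rw [mem_filter, mem_Ioc] at hm
    obtain ⟨⟨h1, h2⟩, h3⟩ := hm
    refine ⟨m - t, ?_, by ring⟩
    rw [mem_filter, mem_Ioc]
    refine ⟨⟨by omega, by omega⟩, ?_⟩
    unfold Ev
    rw [add_sub_cancel]
    exact h3

set_option maxHeartbeats 1000000 in
open Classical in
/-- Let `q` be the law of a random word in base `b` (`Words b q`: any language, finite or infinite, lengths with an
exponential moment and without a common divisor, and two words which do not commute), and `κ ≥ 1`. There are constants `C` and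
`x₀` such that for all real `x ≥ x₀`, for all `k ≥ C log ^ 2 x`, for every random integer `v < b ^ k` whose `k` digits are
written by independent random words with the law `q`, conditioned on the total length `k`, or cut after `k` digits
(`WordLaw b q k p`), for EVERY choice `a` of one class `a p` modulo `p` for each prime `x ≤ p < 2 x`, for every integer `c` and every
`0 < ε ≤ 1` with `ε log x ≥ 50`: up to a probability of `C log x / (ε ^ 2 x)`, the translate `a - (c + κ v)` has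
`S (N) ≥ (1 - ε) ∑ N / p` (sum over the primes `x ≤ p < 2 x`) for ALL `N ≥ 4 x / ε`. -/
theorem result (b : ℕ) (q : ℕ → ℕ → ℝ) (hq : Words b q) (κ : ℕ) (hκ : 1 ≤ κ) :
    ∃ C x₀ : ℝ, 0 < C ∧ ∀ x : ℝ, x₀ ≤ x → ∀ k : ℕ, C * Real.log x ^ 2 ≤ k → ∀ p : ℕ → ℝ, WordLaw b q k p →
    ∀ (a : ℕ → ℤ) (c : ℤ) (ε : ℝ), 0 < ε → ε ≤ 1 → 50 ≤ ε * Real.log x →
      ∑ v ∈ range (b ^ k), (if ∀ N : ℕ, 4 * x / ε ≤ N →
        (1 - ε) * ∑ r ∈ P x, (N : ℝ) / r ≤ S x N (fun r => a r - (c + κ * v)) then 0 else p v) ≤ C * Real.log x / (ε ^ 2 * x) := by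
  obtain ⟨L, T, hcls⟩ := Pool.Agent.Run7.h672.XC.word_rcls hq
  obtain ⟨C₀, x₀, hC₀, hres⟩ := law_res hcls κ hκ
  refine ⟨C₀ + 40960, max x₀ 2, by positivity, fun x hx k hk p hp a c ε hε hε1 hεl => ?_⟩
  have hx1 : x₀ ≤ x := (le_max_left _ _).trans hx
  have hx2 : 2 ≤ x := (le_max_right _ _).trans hx
  have hx0 : 0 < x := by linarith
  obtain ⟨ℓ, hℓ⟩ : ∃ ℓ, ℓ = Real.log x := ⟨_, rfl⟩
  rw [← hℓ] at hk hεl ⊢
  have hℓ0 : 0 ≤ ℓ := by rw [hℓ]; exact Real.log_nonneg (by linarith)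
  have hℓ50 : 50 ≤ ℓ := by nlinarith
  obtain ⟨Q, hQ⟩ : ∃ Q, Q = P x := ⟨_, rfl⟩
  have hN : Near Q x := by rw [hQ]; exact near_P x
  have hp0 : ∀ v, 0 ≤ p v := law_nonneg hq hp
  have hp1 : ∑ v ∈ range (b ^ k), p v = 1 := law_sum hp
  obtain ⟨t, ht⟩ : ∃ t : ℕ → ℤ, t = fun v : ℕ => c + (κ : ℤ) * (v : ℤ) := ⟨_, rfl⟩
  obtain ⟨δ, hδ⟩ : ∃ δ : ℝ, δ = 1 / x ^ 8 := ⟨_, rfl⟩
  have hδ0 : 0 ≤ δ := by rw [hδ]; positivity
  have hR : ∀ S ⊆ Q, S.card ≤ 4 → ∀ ρ : ℕ → ℤ, |∑ v ∈ range (b ^ k), (if ∀ q ∈ S, t v ≡ ρ q [ZMOD (q : ℤ)] then p v else 0) -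
      1 / ∏ q ∈ S, (q : ℝ)| ≤ δ := by
    intro S hS hS4 ρ
    rw [ht, hδ]
    exact hres x hx1 k (by rw [← hℓ]; nlinarith [sq_nonneg ℓ]) p hp S (fun q hq => hN q (hS hq)) hS4 c ρ
  have hcheb := cheb hN hx2
  rw [← hℓ] at hcheb
  have h4 := log4_lt
  obtain ⟨B, hB⟩ : ∃ B : ℝ, B = Q.card := ⟨_, rfl⟩
  have hB0 : 0 ≤ B := by rw [hB]; exact Nat.cast_nonneg _
  rw [← hB] at hcheb
  have hBl : B * ℓ ≤ 2.7726 * x := by nlinarith
  have hBx : B ≤ x := by nlinarith
  have hBε : 18 * B ≤ ε * x := by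
    have h1 : B * 50 ≤ B * (ε * ℓ) := mul_le_mul_of_nonneg_left hεl hB0
    have h2 : ε * (B * ℓ) ≤ ε * (2.7726 * x) := mul_le_mul_of_nonneg_left hBl hε.le
    nlinarith
  rcases hB0.eq_or_lt with hBz | hBpos
  · -- there are no primes
    have hQe : Q = ∅ := by
      rw [← card_eq_zero]
      have : (Q.card : ℝ) = 0 := by rw [← hB, ← hBz]
      exact_mod_cast this
    refine le_trans (le_of_eq (sum_eq_zero fun v _ => ?_)) (by positivity)
    rw [if_pos]
    intro N _
    rw [← hQ, hQe, sum_empty, mul_zero]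
    exact Nat.cast_nonneg _
  -- the deviation of the overlaps
  obtain ⟨X, hX⟩ : ∃ X : ℕ → ℕ → ℝ, X = fun (N : ℕ) (v : ℕ) => ∑ z ∈ Q.offDiag, ∑ n ∈ Ioc (0 : ℤ) N,
      ((if Ev a z (t v + n) then (1 : ℝ) else 0) - 1 / ((z.1 : ℝ) * z.2)) := ⟨_, rfl⟩
  obtain ⟨τ, hτ⟩ : ∃ τ : ℕ → ℝ, τ = fun N : ℕ => ε * (N : ℝ) * B / (16 * x) := ⟨_, rfl⟩
  obtain ⟨I, hI⟩ : ∃ I, I = Nat.log 2 ⌊2 * x ^ 2⌋₊ + 1 := ⟨_, rfl⟩
  have hkey : ∀ v ∈ range (b ^ k), ¬ (∀ N : ℕ, 4 * x / ε ≤ N →
        (1 - ε) * ∑ r ∈ P x, (N : ℝ) / r ≤ S x N (fun r => a r - (c + κ * v))) →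
      ∃ i ∈ range I, x ≤ ((2 ^ i : ℕ) : ℝ) ∧ τ (2 ^ i) ≤ X (2 ^ i) v := by
    intro v _ hbad
    push Not at hbad
    obtain ⟨N, hN1, hN2⟩ := hbad
    rw [S_translate, ← hQ] at hN2
    have htv : c + (κ : ℤ) * v = t v := by rw [ht]
    rw [htv] at hN2
    have hN0 : (0 : ℝ) < N := lt_of_lt_of_le (by positivity) hN1
    have hNx : 4 * x ≤ N := by
      rw [div_le_iff₀ hε] at hN1
      nlinarith
    have hb := bonf Q a (Ioc (t v) (t v + N))
    have hb' : ((∑ n ∈ Ioc (t v) (t v + N), r Q a n : ℕ) : ℝ) ≤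
        ((cov Q a (Ioc (t v) (t v + N))).card : ℝ) + ((∑ n ∈ Ioc (t v) (t v + N), o Q a n : ℕ) : ℝ) := by
      exact_mod_cast hb
    have hr := sum_r_ge hN a (t v) (t v + N)
    have e1 : (((t v + (N : ℤ) : ℤ) : ℝ) - t v) = N := by push_cast; ring
    rw [e1, ← hB] at hr
    have hs := sum_recip_ge hN hx0 hN0.le
    rw [← hB] at hs
    have h5 : ε * (B * (N / (2 * x))) ≤ ε * ∑ p ∈ Q, (N : ℝ) / p := mul_le_mul_of_nonneg_left hs hε.le
    have h6 : B ≤ ε * N * B / (4 * x) := by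
      rw [div_le_iff₀ hε] at hN1
      rw [le_div_iff₀ (by positivity)]
      nlinarith
    have h7 : ε * (B * (N / (2 * x))) = 2 * (ε * N * B / (4 * x)) := by
      field_simp
      ring
    have hO : ε * N * B / (4 * x) ≤ ((∑ n ∈ Ioc (t v) (t v + N), o Q a n : ℕ) : ℝ) := by
      linarith
    -- the length is smaller than `x ^ 2`
    have hNlt : (N : ℝ) < x ^ 2 := by
      by_contra hge
      push Not at hge
      have h8 := sum_o_le hN hx0 a (A := t v) (B := t v + N) (by omega)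
      rw [e1, ← hB] at h8
      have h9 : (1 : ℝ) ≤ N / x ^ 2 := by
        rw [le_div_iff₀ (by positivity)]
        linarith
      have h10 : ε * N * B / (4 * x) ≤ B ^ 2 * (2 * (N / x ^ 2)) := by
        refine hO.trans (h8.trans ?_)
        apply mul_le_mul_of_nonneg_left _ (by positivity)
        linarith
      have e2 : ε * N * B / (4 * x) = (B * N / (4 * x ^ 2)) * (ε * x) := by field_simp
      have e3 : B ^ 2 * (2 * (N / x ^ 2)) = (B * N / (4 * x ^ 2)) * (8 * B) := by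
        field_simp
        ring
      rw [e2, e3] at h10
      have h11 : ε * x ≤ 8 * B := le_of_mul_le_mul_left h10 (by positivity)
      linarith
    -- the power of `2`
    obtain ⟨i, hi⟩ : ∃ i, i = Nat.clog 2 N := ⟨_, rfl⟩
    have hN1' : 1 < N := by
      have : (1 : ℝ) < N := by linarith
      exact_mod_cast this
    have hi1 : N ≤ 2 ^ i := by rw [hi]; exact Nat.le_pow_clog (by omega) N
    have hi2 : 2 ^ i < 2 * N := by
      have h8 : 2 ^ (i - 1) < N := by rw [hi]; exact Nat.pow_pred_clog_lt_self (by omega) hN1'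
      have h9 : 1 ≤ i := by
        rw [hi]
        exact Nat.clog_pos (by omega) hN1'
      have h10 : 2 ^ i = 2 * 2 ^ (i - 1) := by rw [← pow_succ']; congr 1; omega
      omega
    have hi1r : (N : ℝ) ≤ ((2 ^ i : ℕ) : ℝ) := by exact_mod_cast hi1
    have hi2r : ((2 ^ i : ℕ) : ℝ) < 2 * N := by exact_mod_cast hi2
    refine ⟨i, ?_, by linarith, ?_⟩
    · rw [mem_range, hI]
      have h8 : 2 ^ i ≤ ⌊2 * x ^ 2⌋₊ := Nat.le_floor (by push_cast at hi2r ⊢; linarith)
      have h9 := Nat.le_log_of_pow_le (by omega : 1 < 2) h8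
      omega
    · have hmono : ((∑ n ∈ Ioc (t v) (t v + N), o Q a n : ℕ) : ℝ) ≤ ((∑ n ∈ Ioc (t v) (t v + (2 ^ i : ℕ)), o Q a n : ℕ) : ℝ) := by
        have : ∑ n ∈ Ioc (t v) (t v + N), o Q a n ≤ ∑ n ∈ Ioc (t v) (t v + (2 ^ i : ℕ)), o Q a n := by
          apply sum_le_sum_of_subset_of_nonneg
          · apply Ioc_subset_Ioc le_rfl
            have : (N : ℤ) ≤ ((2 ^ i : ℕ) : ℤ) := by exact_mod_cast hi1
            linarith
          · intro _ _ _
            exact Nat.zero_le _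
        exact_mod_cast this
      obtain ⟨M, hM⟩ : ∃ M : ℕ, M = 2 ^ i := ⟨_, rfl⟩
      rw [← hM] at hi1r hi2r hmono ⊢
      rw [over_eq Q a (t v) M] at hmono
      have hw : ∑ z ∈ Q.offDiag, ∑ _n ∈ Ioc (0 : ℤ) M, 1 / ((z.1 : ℝ) * z.2) ≤ B ^ 2 * (M / x ^ 2) := by
        have h8 : ∀ z ∈ Q.offDiag, ∑ _n ∈ Ioc (0 : ℤ) M, 1 / ((z.1 : ℝ) * z.2) ≤ M / x ^ 2 := by
          intro z hz
          rw [mem_offDiag] at hz
          rw [sum_const, Int.card_Ioc, sub_zero, Int.toNat_natCast, nsmul_eq_mul, mul_one_div]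
          apply div_le_div_of_nonneg_left (Nat.cast_nonneg _) (by positivity)
          rw [sq]
          exact mul_le_mul (hN _ hz.1).2.1 (hN _ hz.2.1).2.1 hx0.le (Nat.cast_nonneg _)
        refine (sum_le_sum h8).trans ?_
        rw [sum_const, nsmul_eq_mul]
        apply mul_le_mul_of_nonneg_right _ (by positivity)
        have h2 : Q.offDiag.card ≤ Q.card * Q.card := by
          rw [offDiag_card]
          omega
        have h3 : (Q.offDiag.card : ℝ) ≤ ((Q.card * Q.card : ℕ) : ℝ) := by exact_mod_cast h2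
        push_cast at h3
        rw [← hB] at h3
        nlinarith
      rw [hX, hτ]
      simp only
      simp_rw [sum_sub_distrib]
      have hM0 : (0 : ℝ) < M := by linarith
      have e4 : ε * M * B / (16 * x) = (B * M / (16 * x ^ 2)) * (ε * x) := by field_simp
      have e5 : B ^ 2 * ((M : ℝ) / x ^ 2) = (B * M / (16 * x ^ 2)) * (16 * B) := by
        field_simp
      have e6 : ε * N * B / (4 * x) = (B * N / (16 * x ^ 2)) * (4 * (ε * x)) := by
        field_simp
        ring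
      have h8 : (B * M / (16 * x ^ 2)) * (2 * (ε * x)) ≤ (B * N / (16 * x ^ 2)) * (4 * (ε * x)) := by
        have h9 : B * M / (16 * x ^ 2) ≤ B * (2 * N) / (16 * x ^ 2) := by
          apply div_le_div_of_nonneg_right _ (by positivity)
          exact mul_le_mul_of_nonneg_left hi2r.le hB0
        have h10 : (B * M / (16 * x ^ 2)) * (2 * (ε * x)) ≤ B * (2 * N) / (16 * x ^ 2) * (2 * (ε * x)) :=
          mul_le_mul_of_nonneg_right h9 (by positivity)
        refine h10.trans (le_of_eq ?_)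
        ring
      have h9 : (B * M / (16 * x ^ 2)) * (16 * B) ≤ (B * M / (16 * x ^ 2)) * (ε * x) :=
        mul_le_mul_of_nonneg_left (by linarith) (by positivity)
      have h10 : (B * M / (16 * x ^ 2)) * (2 * (ε * x)) = (B * M / (16 * x ^ 2)) * (ε * x) + (B * M / (16 * x ^ 2)) * (ε * x) := by ring
      rw [e4]
      rw [e5] at hw
      rw [e6] at hO
      linarith
  -- the union bound
  have hpt : ∀ v ∈ range (b ^ k), (if ∀ N : ℕ, 4 * x / ε ≤ N →
        (1 - ε) * ∑ r ∈ P x, (N : ℝ) / r ≤ S x N (fun r => a r - (c + κ * v)) then 0 else p v) ≤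
      ∑ i ∈ range I, (if x ≤ ((2 ^ i : ℕ) : ℝ) then p v * X (2 ^ i) v ^ 2 / τ (2 ^ i) ^ 2 else 0) := by
    intro v hv
    have hn : ∀ i ∈ range I, 0 ≤ (if x ≤ ((2 ^ i : ℕ) : ℝ) then p v * X (2 ^ i) v ^ 2 / τ (2 ^ i) ^ 2 else 0) := by
      intro i _
      have := hp0 v
      split_ifs <;> positivity
    by_cases hg : ∀ N : ℕ, 4 * x / ε ≤ N →
        (1 - ε) * ∑ r ∈ P x, (N : ℝ) / r ≤ S x N (fun r => a r - (c + κ * v))
    · rw [if_pos hg]
      exact sum_nonneg hn
    · rw [if_neg hg]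
      obtain ⟨i, hi, h1, h2⟩ := hkey v hv hg
      refine le_trans ?_ (single_le_sum hn hi)
      rw [if_pos h1]
      have hτ0 : 0 < τ (2 ^ i) := by
        rw [hτ]
        simp only
        have : (0 : ℝ) < ((2 ^ i : ℕ) : ℝ) := by linarith
        positivity
      rw [le_div_iff₀ (by positivity)]
      apply mul_le_mul_of_nonneg_left _ (hp0 v)
      exact pow_le_pow_left₀ hτ0.le h2 2
  refine (sum_le_sum hpt).trans ?_
  rw [sum_comm]
  have hterm : ∀ i ∈ range I, ∑ v ∈ range (b ^ k), (if x ≤ ((2 ^ i : ℕ) : ℝ) then p v * X (2 ^ i) v ^ 2 / τ (2 ^ i) ^ 2 else 0) ≤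
      8192 / (ε ^ 2 * x) := by
    intro i _
    by_cases h1 : x ≤ ((2 ^ i : ℕ) : ℝ)
    · simp only [if_pos h1]
      rw [← sum_div]
      obtain ⟨M, hM⟩ : ∃ M : ℕ, M = 2 ^ i := ⟨_, rfl⟩
      rw [← hM] at h1 ⊢
      have hM0 : (0 : ℝ) < M := by linarith
      have h2 := second_moment (a := a) hp0 hp1 hx2 hN hδ0 hR M h1
      rw [← hB] at h2
      have hτ0 : 0 < τ M := by
        rw [hτ]
        simp only
        positivity
      rw [div_le_iff₀ (by positivity)]
      have h3 : ∑ v ∈ range (b ^ k), p v * X M v ^ 2 ≤ B ^ 2 * (M * (3 * δ * (B ^ 2 * M) +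
          4 * (B * (2 * M / x * (1 / x ^ 3 + δ) + M * (1 / x ^ 4)) + 2 * M / x * (1 / x ^ 2)))) := by
        rw [hX]
        exact h2
      refine h3.trans ?_
      have hG : 3 * δ * (B ^ 2 * M) + 4 * (B * (2 * M / x * (1 / x ^ 3 + δ) + M * (1 / x ^ 4)) + 2 * M / x * (1 / x ^ 2)) ≤
          32 * M / x ^ 3 := by
        have hδ1 : δ ≤ 1 / x ^ 5 := by
          rw [hδ]
          apply one_div_le_one_div_of_le (by positivity)
          exact pow_le_pow_right₀ (by linarith) (by norm_num)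
        have hδ2 : δ ≤ 1 / x ^ 3 := by
          rw [hδ]
          apply one_div_le_one_div_of_le (by positivity)
          exact pow_le_pow_right₀ (by linarith) (by norm_num)
        have g1 : 3 * δ * (B ^ 2 * M) ≤ 3 * M / x ^ 3 := by
          calc 3 * δ * (B ^ 2 * M) ≤ 3 * (1 / x ^ 5) * (x ^ 2 * M) := by
                apply mul_le_mul _ _ (by positivity) (by positivity)
                · linarith
                · apply mul_le_mul_of_nonneg_right _ hM0.le
                  exact pow_le_pow_left₀ hB0 hBx 2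
            _ = 3 * M / x ^ 3 := by field_simp
        have g2 : B * (2 * M / x * (1 / x ^ 3 + δ) + M * (1 / x ^ 4)) ≤ 5 * M / x ^ 3 := by
          calc B * (2 * M / x * (1 / x ^ 3 + δ) + M * (1 / x ^ 4)) ≤ x * (2 * M / x * (1 / x ^ 3 + 1 / x ^ 3) + M * (1 / x ^ 4)) := by
                apply mul_le_mul hBx _ (by positivity) hx0.le
                apply add_le_add _ le_rfl
                apply mul_le_mul_of_nonneg_left _ (by positivity)
                linarith
            _ = 4 * M / x ^ 3 + M / x ^ 3 := by field_simp; ring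
            _ ≤ 5 * M / x ^ 3 := le_of_eq (by ring)
        have g3 : 2 * M / x * (1 / x ^ 2) = 2 * M / x ^ 3 := by field_simp
        rw [g3]
        have e : 32 * (M : ℝ) / x ^ 3 = 3 * M / x ^ 3 + 4 * (5 * M / x ^ 3 + 2 * M / x ^ 3) + M / x ^ 3 := by ring
        have g4 : 0 ≤ (M : ℝ) / x ^ 3 := by positivity
        rw [e]
        linarith
      calc B ^ 2 * (M * (3 * δ * (B ^ 2 * M) +
          4 * (B * (2 * M / x * (1 / x ^ 3 + δ) + M * (1 / x ^ 4)) + 2 * M / x * (1 / x ^ 2)))) ≤ B ^ 2 * (M * (32 * M / x ^ 3)) := by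
            apply mul_le_mul_of_nonneg_left _ (by positivity)
            exact mul_le_mul_of_nonneg_left hG hM0.le
        _ = 8192 / (ε ^ 2 * x) * τ M ^ 2 := by
            rw [hτ]
            simp only
            field_simp
            ring
    · simp only [if_neg h1]
      rw [sum_const_zero]
      positivity
  refine (sum_le_sum hterm).trans ?_
  rw [sum_const, card_range, nsmul_eq_mul]
  have hI5 : (I : ℝ) ≤ 5 * ℓ := by
    have h1 : (2 : ℝ) ^ (Nat.log 2 ⌊2 * x ^ 2⌋₊) ≤ 2 * x ^ 2 := by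
      have hfl : 1 ≤ ⌊2 * x ^ 2⌋₊ := Nat.le_floor (by push_cast; nlinarith)
      have h2 : 2 ^ (Nat.log 2 ⌊2 * x ^ 2⌋₊) ≤ ⌊2 * x ^ 2⌋₊ := Nat.pow_log_le_self 2 (by omega)
      calc (2 : ℝ) ^ (Nat.log 2 ⌊2 * x ^ 2⌋₊) ≤ (⌊2 * x ^ 2⌋₊ : ℝ) := by exact_mod_cast h2
        _ ≤ 2 * x ^ 2 := Nat.floor_le (by positivity)
    have h3 := Real.log_le_log (by positivity) h1
    rw [Real.log_pow, Real.log_mul (by norm_num) (by positivity), Real.log_pow, ← hℓ] at h3
    push_cast at h3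
    have h4 := Real.log_two_gt_d9
    have h5 := Real.log_two_lt_d9
    have h6 : (0 : ℝ) ≤ (Nat.log 2 ⌊2 * x ^ 2⌋₊ : ℝ) := Nat.cast_nonneg _
    have h7 : (Nat.log 2 ⌊2 * x ^ 2⌋₊ : ℝ) * 0.6931471803 ≤ (Nat.log 2 ⌊2 * x ^ 2⌋₊ : ℝ) * Real.log 2 :=
      mul_le_mul_of_nonneg_left h4.le h6
    have h8 : (I : ℝ) = (Nat.log 2 ⌊2 * x ^ 2⌋₊ : ℝ) + 1 := by rw [hI]; push_cast; ring
    rw [h8]
    linarith
  calc (I : ℝ) * (8192 / (ε ^ 2 * x)) ≤ (5 * ℓ) * (8192 / (ε ^ 2 * x)) := mul_le_mul_of_nonneg_right hI5 (by positivity)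
    _ = 40960 * ℓ / (ε ^ 2 * x) := by ring
    _ ≤ (C₀ + 40960) * ℓ / (ε ^ 2 * x) := by
        apply div_le_div_of_nonneg_right _ (by positivity)
        nlinarith

end Pool.Agent.Results.MP_bb5cc8_nt.WordTranslates
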